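import Pool.Agent.Helper7K9.KW.Defs
import Pool.Agent.Helper7K9.OL.KeyC

/-!
# The extreme weights
-/

open CategoryTheory Finset

universe u v

namespace Pool.Agent.Helper7K9.KW

open Pool.Agent.H914 Pool.Agent.H914.VarClass Pool.Agent.H914.VarClass.Obj
  Pool.Agent.H914.WeilCohomology Pool.Agent.Helper7K9.OL

/-- A functional on a finite-dimensional space which vanishes on the kernel of a symmetric form is
given by the form. -/
lemma exists_of_ker {V : Type*} [AddCommGroup V] [Module ℚ V] [Module.Finite ℚ V]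
    (q : V →ₗ[ℚ] V →ₗ[ℚ] ℚ) (hq : ∀ v w, q v w = q w v) (g : V →ₗ[ℚ] ℚ)
    (hg : ∀ v, (∀ w, q v w = 0) → g v = 0) : ∃ c, ∀ v, q c v = g v := by
  have h1 : g ∈ LinearMap.range q.dualMap := by
    rw [LinearMap.range_dualMap_eq_dualAnnihilator_ker, Submodule.mem_dualAnnihilator]
    intro v hv
    apply hg
    intro w
    rw [LinearMap.mem_ker.1 hv, LinearMap.zero_apply]
  obtain ⟨φ, hφ⟩ := h1
  obtain ⟨c, hc⟩ := (Module.evalEquiv ℚ V).surjective φ
  refine ⟨c, fun v => ?_⟩
  rw [← hφ, LinearMap.dualMap_apply, ← hc, hq]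
  rfl

variable {k : Type u} [Field k] {𝒱 : VarClass k} {ops : CycleOps 𝒱}
  (W : WeilCohomology.{u, v} ops) {d : ℕ} (D : Strata 𝒱 d) {L : ∀ p (s : D.S p), (D.Y p s).Cycles}

/-- The constant class with the values `a`. -/
def cK (p : ℕ) (a : D.S p → W.K) : Coh W D p := fun s => a s • 1

/-- The alternating sum of restrictions. -/
def sK (p : ℕ) (a : D.S p → W.K) : D.S (p + 1) → W.K := fun s =>
  ∑ i : Fin (p + 2), (-1) ^ (i : ℕ) * a (D.face p i s)

lemma res_cK (p : ℕ) (a : D.S p → W.K) : res W D p (cK W D p a) = cK W D (p + 1) (sK W D p a) := by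
  funext s
  rw [res_apply]
  simp only [cK, sK]
  rw [sum_smul]
  apply sum_congr rfl
  intro i _
  rw [map_smul, map_one, smul_smul]

lemma cK_cst (p : ℕ) (u : D.S p → ℚ) : cK W D p (fun s => (u s : W.K)) = cst W D p u := rfl

lemma exists_cK {p : ℕ} {x : Coh W D p} (hx : ∀ s, x s ∈ W.gr _ 0) : ∃ a, x = cK W D p a := by
  have h : ∀ s, ∃ c : W.K, c • (1 : W.H (D.Y p s)) = x s := by
    intro s
    have h1 := hx s
    rw [W.gr_zero, Submodule.mem_span_singleton] at h1
    exact h1
  choose a ha using h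
  exact ⟨a, funext fun s => (ha s).symm⟩

/-- Weighted sums over the strata. -/
noncomputable def wt (hL : IsPolarized W D L) (p : ℕ) (s : D.S p) : ℚ :=
  (hL.pos' p s).choose

lemma wt_pos (hL : IsPolarized W D L) (p : ℕ) (s : D.S p) : 0 < wt W D hL p s :=
  (hL.pos' p s).choose_spec.1

lemma wt_spec (hL : IsPolarized W D L) {p e : ℕ} (h : e + p = d) (s : D.S p) :
    W.tr _ (W.cl _ (L p s) ^ e) = (wt W D hL p s : W.K) := by
  have h1 := (hL.pos' p s).choose_spec.2
  have h2 : (D.Y p s).dim = e := by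
    have := D.dim_add p s
    omega
  subst h2
  exact h1

lemma degF_cK (hL : IsPolarized W D L) {p e : ℕ} (h : e + p = d) (a : D.S p → W.K)
    (u : D.S p → ℚ) :
    degF W D L p e (cK W D p a) (cst W D p u) =
      ∑ s, a s * ((u s * wt W D hL p s : ℚ) : W.K) := by
  rw [degF_cst_right]
  apply sum_congr rfl
  intro s _
  simp only [cK]
  rw [mul_smul_comm, mul_one, map_smul, wt_spec W D hL h, smul_eq_mul, Rat.cast_mul]
  ring

lemma exists_pi_ne {K : Type*} [Field K] [CharZero K] {a : K}
    (h : ∀ π : K →ₗ[ℚ] ℚ, π a = 0) : a = 0 :=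
  (Module.forall_dual_apply_eq_zero_iff ℚ a).1 h

lemma pi_mul {K : Type*} [Field K] [CharZero K] (π : K →ₗ[ℚ] ℚ) (a : K) (r : ℚ) :
    π (a * (r : K)) = π a * r := by
  rw [mul_comm, ← Rat.smul_def, map_smul, smul_eq_mul, mul_comm]

lemma pi_sK {p : ℕ} (π : W.K →ₗ[ℚ] ℚ) (a : D.S p → W.K) (s : D.S (p + 1)) :
    π (sK W D p a s) = sc D p (fun t => π (a t)) s := by
  simp only [sK, sc, AddMonoidHom.coe_mk, ZeroHom.coe_mk, map_sum]
  apply sum_congr rfl
  intro i _
  have : ((-1 : W.K)) ^ (i : ℕ) * a (D.face p i s) = a (D.face p i s) * (((-1) ^ (i : ℕ) : ℚ) : W.K) := by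
    push_cast
    ring
  rw [this, pi_mul, mul_comm]

/-- Injectivity on the extreme weights. -/
lemma inj_key (hL : IsPolarized W D L) {n : ℕ} {y : Coh W D n} (hy : ∀ s, y s ∈ W.gr _ 0)
    (h : gys W D n (res W D n y) = 0) : res W D n y = 0 := by
  by_cases hn : n + 1 ≤ d
  · obtain ⟨a, rfl⟩ := exists_cK W D hy
    obtain ⟨e, he⟩ : ∃ e, e + (n + 1) = d := ⟨d - (n + 1), by omega⟩
    rw [res_cK] at h ⊢
    have h1 : ∀ s, sK W D n a s = 0 := by
      intro s
      apply exists_pi_ne
      intro π
      rw [pi_sK]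
      set u : D.S n → ℚ := fun t => π (a t) with hu
      have h2 : degF W D L (n + 1) e (cK W D (n + 1) (sK W D n a)) (cst W D (n + 1) (sc D n u)) = 0 := by
        rw [← res_cst, ← degF_adj W D hL, h]
        simp [degF]
      rw [degF_cK W D hL he] at h2
      have h3 := congrArg π h2
      rw [map_sum, map_zero] at h3
      have h4 : ∑ t, (sc D n u t) * ((sc D n u t) * wt W D hL (n + 1) t) = 0 := by
        rw [← h3]
        apply sum_congr rfl
        intro t _
        rw [pi_mul, pi_sK]
      rw [sum_eq_zero_iff_of_nonneg] at h4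
      · have h5 := h4 s (mem_univ s)
        rw [← mul_assoc] at h5
        rcases mul_eq_zero.1 h5 with h5 | h5
        · exact mul_self_eq_zero.1 h5
        · exact absurd h5 (wt_pos W D hL (n + 1) s).ne'
      · intro t _
        have := mul_self_nonneg (sc D n u t)
        have := (wt_pos W D hL (n + 1) t).le
        rw [← mul_assoc]
        positivity
    funext s
    simp [cK, h1 s]
  · funext s
    have := D.dim_add (n + 1) s
    omega

lemma top_eq_zero {X : 𝒱.Obj} {x : W.H X} (hx : x ∈ W.gr X (2 * X.dim)) (h : W.tr X x = 0) :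
    x = 0 := by
  apply W.nondeg
  intro b
  refine gr_induction (W.isInternal X) (p := fun b => W.tr X (x * b) = 0) ?_ ?_ b
  · intro i b hb
    by_cases hi : i = 0
    · subst hi
      rw [W.gr_zero, Submodule.mem_span_singleton] at hb
      obtain ⟨c, rfl⟩ := hb
      rw [mul_smul_comm, mul_one, map_smul, h, smul_zero]
    · exact W.tr_eq_zero (W.mul_mem hx hb) (by omega)
  · intro a b ha hb
    rw [mul_add, map_add, ha, hb, add_zero]

/-- Surjectivity over the rational numbers. -/
lemma surj_rat (hS : IsSemistable W D) (hL : IsPolarized W D L) {n : ℕ} (u : D.S (n + 1) → ℚ)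
    (hu : sc D (n + 1) u = 0) : ∃ v : D.S n → ℚ, gys W D n (cst W D (n + 1) (u - sc D n v)) = 0 := by
  by_cases hn : n + 1 ≤ d
  swap
  · refine ⟨0, ?_⟩
    have : cst W D (n + 1) (u - sc D n 0) = 0 := by
      funext s
      have := D.dim_add (n + 1) s
      omega
    rw [this, map_zero]
  have := nontriv W D hL
  obtain ⟨e, he⟩ : ∃ e, e + (n + 1) = d := ⟨d - (n + 1), by omega⟩
  -- the projection
  let F : (D.S (n + 1) → ℚ) →ₗ[ℚ] (D.S (n + 1) → ℚ) →ₗ[ℚ] ℚ :=
    LinearMap.mk₂ ℚ (fun x y => ∑ s, x s * (y s * wt W D hL (n + 1) s))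
      (by intro x x' y; simp [add_mul, sum_add_distrib])
      (by intro c x y; simp [mul_sum, mul_assoc])
      (by intro x y y'; simp [add_mul, mul_add, sum_add_distrib])
      (by intro c x y; simp only [Pi.smul_apply, smul_eq_mul, mul_sum]; apply sum_congr rfl; intro s _; ring)
  have hF : ∀ x y, F x y = ∑ s, x s * (y s * wt W D hL (n + 1) s) := fun _ _ => rfl
  have hFs : ∀ x y, F x y = F y x := by
    intro x y
    rw [hF, hF]
    apply sum_congr rfl
    intro s _
    ring
  have hFpos : ∀ x, F x x = 0 → x = 0 := by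
    intro x hx
    rw [hF, sum_eq_zero_iff_of_nonneg] at hx
    · funext s
      have h5 := hx s (mem_univ s)
      rw [← mul_assoc] at h5
      rcases mul_eq_zero.1 h5 with h5 | h5
      · exact mul_self_eq_zero.1 h5
      · exact absurd h5 (wt_pos W D hL (n + 1) s).ne'
    · intro t _
      have := mul_self_nonneg (x t)
      have := (wt_pos W D hL (n + 1) t).le
      rw [← mul_assoc]
      positivity
  let S : (D.S n → ℚ) →ₗ[ℚ] (D.S (n + 1) → ℚ) := (sc D n).toRatLinearMap
  have hSv : ∀ v, S v = sc D n v := fun _ => rfl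
  obtain ⟨v, hv⟩ := exists_of_ker (F.compl₁₂ S S) (by
      intro v w
      rw [LinearMap.compl₁₂_apply, LinearMap.compl₁₂_apply, hFs]) ((F u).comp S) (by
      intro v hv
      have h1 := hFpos _ (hv v)
      rw [LinearMap.comp_apply, h1, map_zero])
  refine ⟨v, ?_⟩
  set u' := u - sc D n v with hu'
  have horth : ∀ w, F u' (sc D n w) = 0 := by
    intro w
    have h1 := hv w
    rw [LinearMap.compl₁₂_apply, LinearMap.comp_apply, hSv, hSv] at h1
    rw [hu', map_sub, LinearMap.sub_apply, h1, sub_self]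
  have hdeg : ∀ w, degF W D L (n + 1) e (cst W D (n + 1) u') (cst W D (n + 1) (sc D n w)) = 0 := by
    intro w
    rw [← cK_cst, degF_cK W D hL he]
    have h1 : ∑ s, ((u' s : ℚ) : W.K) * ((sc D n w s * wt W D hL (n + 1) s : ℚ) : W.K) =
        ((F u' (sc D n w) : ℚ) : W.K) := by
      rw [hF]
      push_cast
      rfl
    rw [h1, horth, Rat.cast_zero]
  have hscu : sc D (n + 1) u' = 0 := by
    have h1 : sc D (n + 1) (sc D n v) = 0 := by
      apply cst_injective W D (n + 2)
      rw [← res_cst, ← res_cst, hS.res_res', map_zero]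
    rw [hu', map_sub, hu, h1, sub_zero]
  have hresy : res W D n (gys W D n (cst W D (n + 1) u')) = 0 := by
    have h1 := hS.res_gys' n (cst W D (n + 1) u')
    rw [res_cst, hscu, map_zero, map_zero, add_zero] at h1
    exact h1
  by_cases hne : n + 1 = d
  · -- the strata are curves
    have he0 : e = 0 := by omega
    funext t
    have ht := D.dim_add n t
    apply top_eq_zero W (x := gys W D n (cst W D (n + 1) u') t)
    · obtain ⟨z, hz, h1⟩ := gys_mem W D (cst_mem W D (n + 1) u') t
      rw [← h1]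
      have h2 := W.cl_mem hz
      rwa [show 2 * (0 + 1) = 2 * (D.Y n t).dim by omega] at h2
    · have h1 := hdeg (Pi.single t 1)
      rw [← res_cst, ← degF_adj W D hL, he0, degF_cst_right, Finset.sum_eq_single t] at h1
      · simpa using h1
      · intro s _ hs
        rw [Pi.single_eq_of_ne hs]
        simp
      · intro h2
        exact absurd (mem_univ t) h2
  · obtain ⟨e', he'⟩ : ∃ e', e = e' + 1 := ⟨e - 1, by omega⟩
    have hmem := gys_mem W D (cst_mem W D (n + 1) u')
    obtain ⟨r, h1, _, h3⟩ := HI W D hL n e' (by omega) hmem (by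
      intro w
      rw [degF_adj W D hL, res_lf W D hL, degF_comm W D hL _ _ (cst_mem W D (n + 1) u'),
        degF_lf_left, degF_comm W D hL _ _ (cst_mem W D (n + 1) _), ← he']
      exact hdeg w)
    apply h3
    rw [degF_adj W D hL, hresy] at h1
    have h4 : degF W D L (n + 1) e' (cst W D (n + 1) u') 0 = 0 := by simp [degF]
    rw [h4] at h1
    exact_mod_cast h1.symm

/-- Surjectivity on the extreme weights. -/
lemma surj_key (hS : IsSemistable W D) (hL : IsPolarized W D L) {n : ℕ} {x : Coh W D (n + 1)}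
    (hx : ∀ s, x s ∈ W.gr _ 0) (h : res W D (n + 1) x = 0) :
    ∃ y : Coh W D n, (∀ s, y s ∈ W.gr _ 0) ∧ gys W D n (x - res W D n y) = 0 := by
  classical
  have := nontriv W D hL
  obtain ⟨a, rfl⟩ := exists_cK W D hx
  let B := Module.Basis.ofVectorSpace ℚ W.K
  have h0 : ∀ s, sK W D (n + 1) a s = 0 := by
    intro s
    rw [res_cK] at h
    have h1 := congrFun h s
    simp only [cK, Pi.zero_apply] at h1
    rcases smul_eq_zero.1 h1 with h1 | h1
    · exact h1
    · exact absurd h1 one_ne_zero
  have h1 : ∀ i, ∃ v : D.S n → ℚ, gys W D n (cst W D (n + 1) ((fun s => B.coord i (a s)) - sc D n v)) = 0 := by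
    intro i
    apply surj_rat W D hS hL
    funext s
    rw [← pi_sK W D (B.coord i), h0, map_zero]
    rfl
  choose v hv using h1
  let I : Finset _ := univ.biUnion fun s => (B.repr (a s)).support
  have ha : ∀ s, a s = ∑ i ∈ I, ((B.coord i (a s) : ℚ) : W.K) * B i := by
    intro s
    conv_lhs => rw [← B.linearCombination_repr (a s), Finsupp.linearCombination_apply, Finsupp.sum]
    have : (B.repr (a s)).support ⊆ I := fun i hi => mem_biUnion.2 ⟨s, mem_univ s, hi⟩
    rw [← Finset.sum_subset this]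
    · apply sum_congr rfl
      intro i _
      rw [Rat.smul_def]
      rfl
    · intro i _ hi
      have h2 : B.coord i (a s) = 0 := by
        rw [Finsupp.notMem_support_iff] at hi
        exact hi
      rw [h2, Rat.cast_zero, zero_mul]
  refine ⟨∑ i ∈ I, B i • cst W D n (v i), ?_, ?_⟩
  · intro s
    rw [Finset.sum_apply]
    apply Submodule.sum_mem
    intro i _
    exact Submodule.smul_mem _ _ (Submodule.smul_mem _ _ (W.one_mem _))
  · have h2 : cK W D (n + 1) a - res W D n (∑ i ∈ I, B i • cst W D n (v i)) =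
        ∑ i ∈ I, B i • cst W D (n + 1) ((fun s => B.coord i (a s)) - sc D n (v i)) := by
      have h3 : cK W D (n + 1) a = ∑ i ∈ I, B i • cst W D (n + 1) (fun s => B.coord i (a s)) := by
        funext s
        rw [Finset.sum_apply]
        simp only [cK]
        rw [ha s, sum_smul]
        apply sum_congr rfl
        intro i _
        simp only [Pi.smul_apply, cst, AddMonoidHom.coe_mk, ZeroHom.coe_mk]
        rw [smul_smul, mul_comm]
      rw [h3, map_sum, ← sum_sub_distrib]
      apply sum_congr rfl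
      intro i _
      rw [map_smul, res_cst, ← smul_sub, ← map_sub]
    rw [h2, map_sum]
    apply sum_eq_zero
    intro i _
    rw [map_smul, hv, smul_zero]

end Pool.Agent.Helper7K9.KW
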