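import Pool.Agent.Helper7K9.OL.Defs

/-!
# The weight spectral sequence of a simple normal crossing log variety
-/

open CategoryTheory

universe u v

namespace Pool.Agent.Helper7K9.KW

open Pool.Agent.H914 Pool.Agent.H914.VarClass Pool.Agent.H914.VarClass.Obj
  Pool.Agent.H914.WeilCohomology Pool.Agent.Helper7K9.OL

variable {k : Type u} [Field k] {𝒱 : VarClass k} {ops : CycleOps 𝒱}
  (W : WeilCohomology.{u, v} ops) {d : ℕ} (D : Strata 𝒱 d)

/-- Families of classes on the `(p + 1)`-fold intersections, for all `p ≥ 0`. -/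
abbrev Tot : Type v := ∀ p : ℕ, Coh W D p

/-- `f` is an element of `E_1^(-k,q+k)`, the sum of the groups `H^(q-p)` of the `(p + 1)`-fold
intersections over all `p ≥ |k|`, `p ≤ q`, with `p - k` even (in the notation of the problem
`p = 2j + k`). -/
def InE1 (q : ℕ) (k : ℤ) (f : Tot W D) : Prop :=
  ∀ p s, f p s ∈ W.gr _ (q - p) ∧
    (f p s = 0 ∨ (p ≤ q ∧ k.natAbs ≤ p ∧ Even ((p : ℤ) + k)))

/-- The restriction `ρ` on the families. -/
noncomputable def resT (f : Tot W D) : Tot W D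
  | 0 => 0
  | p + 1 => resF W D p (f p)

/-- The differential `E_1^(-k,q+k) → E_1^(-k+1,q+k)`: the sum of `ρ` and `γ`, restricted to the
intersections which occur in the target. -/
noncomputable def dif (k : ℤ) (f : Tot W D) : Tot W D := fun p s =>
  if (k - 1).natAbs ≤ p then resT W D f p s + gysF W D p (f (p + 1)) s else 0

/-- `N^e : E_2^(-e,q+e) → E_2^(e,q-e)`, which is induced by the identity of
`E_1^(-e,q+e) = E_1^(e,q-e)`, is injective. -/
def Inj (q e : ℕ) : Prop :=
  ∀ f, InE1 W D q e f → dif W D e f = 0 →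
    (∃ g, InE1 W D (q - 1) (1 - e) g ∧ dif W D (1 - e) g = f) →
    ∃ g, InE1 W D (q - 1) (e + 1) g ∧ dif W D (e + 1) g = f

/-- `N^e : E_2^(-e,q+e) → E_2^(e,q-e)` is surjective. -/
def Surj (q e : ℕ) : Prop :=
  ∀ f, InE1 W D q (-e) f → dif W D (-e) f = 0 →
    ∃ f' g, InE1 W D q e f' ∧ dif W D e f' = 0 ∧ InE1 W D (q - 1) (1 - e) g ∧
      f = f' + dif W D (1 - e) g

end Pool.Agent.Helper7K9.KW
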