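import Pool.Agent.Helper7K9.KW.St
import Pool.Agent.Helper7K9.OL.Basic

/-!
# Duality for the weight spectral sequence
-/

open CategoryTheory Finset

universe u v

namespace Pool.Agent.Helper7K9.KW

open Pool.Agent.H914 Pool.Agent.H914.VarClass Pool.Agent.H914.VarClass.Obj
  Pool.Agent.H914.WeilCohomology Pool.Agent.Helper7K9.OL

namespace DualL

/-- Separation of a vector and a subspace by a vector of the dual space. -/
lemma sep {K E : Type*} [Field K] [AddCommGroup E] [Module K E] [Module.Finite K E]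
    (Φ : E →ₗ[K] E →ₗ[K] K) (V V' : Submodule K E)
    (h1 : ∀ v ∈ V, (∀ v' ∈ V', Φ v v' = 0) → v = 0)
    (h2 : ∀ v' ∈ V', (∀ v ∈ V, Φ v v' = 0) → v' = 0)
    (S : Submodule K E) (hS : S ≤ V) (v : E) (hvV : v ∈ V) (hv : v ∉ S) :
    ∃ v' ∈ V', (∀ s ∈ S, Φ s v' = 0) ∧ Φ v v' ≠ 0 := by
  classical
  obtain ⟨f, hf, hSf⟩ := Submodule.exists_le_ker_of_notMem hv
  let A : V' →ₗ[K] Module.Dual K V := (V.subtype.dualMap) ∘ₗ Φ.flip ∘ₗ V'.subtype
  let B : V →ₗ[K] Module.Dual K V' := (V'.subtype.dualMap) ∘ₗ Φ ∘ₗ V.subtype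
  have hA : Function.Injective A := by
    rw [injective_iff_map_eq_zero]
    intro x hx
    apply Subtype.ext
    apply h2 x x.2
    intro w hw
    exact congrArg (fun F => F ⟨w, hw⟩) hx
  have hB : Function.Injective B := by
    rw [injective_iff_map_eq_zero]
    intro x hx
    apply Subtype.ext
    apply h1 x x.2
    intro w hw
    exact congrArg (fun F => F ⟨w, hw⟩) hx
  have hdim : Module.finrank K V' = Module.finrank K (Module.Dual K V) := by
    have a1 := LinearMap.finrank_le_finrank_of_injective hA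
    have a2 := LinearMap.finrank_le_finrank_of_injective hB
    rw [Subspace.dual_finrank_eq] at a1 a2 ⊢
    omega
  have hsurj : Function.Surjective A :=
    (LinearMap.injective_iff_surjective_of_finrank_eq_finrank hdim).1 hA
  obtain ⟨v', hv'⟩ := hsurj (f ∘ₗ V.subtype)
  have key : ∀ w ∈ V, Φ w v' = f w := fun w hw => congrArg (fun F => F ⟨w, hw⟩) hv'
  refine ⟨v', v'.2, ?_, ?_⟩
  · intro s hs
    rw [key s (hS hs)]
    exact hSf hs
  · rw [key v hvV]
    exact hf

variable {k : Type u} [Field k] {𝒱 : VarClass k} {ops : CycleOps 𝒱}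
  (W : WeilCohomology.{u, v} ops) {d : ℕ} (D : Strata 𝒱 d)

lemma tr_comm {X : 𝒱.Obj} {i : ℕ} {b : W.H X} (hb : b ∈ W.gr X i) (a : W.H X) :
    W.tr X (a * b) = (-1 : W.K) ^ i * W.tr X (b * a) := by
  refine gr_induction (W.isInternal X)
    (p := fun a => W.tr X (a * b) = (-1 : W.K) ^ i * W.tr X (b * a)) ?_ ?_ a
  · intro j a ha
    by_cases h : j + i = 2 * X.dim
    · rw [W.comm ha hb, map_smul, smul_eq_mul]
      congr 1
      rcases Nat.even_or_odd i with hi | hi
      · rw [hi.neg_one_pow, (hi.mul_left j).neg_one_pow]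
      · have hj : Odd j := by
          rcases Nat.even_or_odd j with h' | h'
          · exfalso
            have := h'.add_odd hi
            rw [h] at this
            exact (Nat.not_even_iff_odd.2 this) (even_two_mul _)
          · exact h'
        rw [hi.neg_one_pow, (hj.mul hi).neg_one_pow]
    · rw [W.tr_eq_zero (W.mul_mem ha hb) h, W.tr_eq_zero (W.mul_mem hb ha) (by omega), mul_zero]
  · intro a a' ha ha'
    rw [add_mul, mul_add, map_add, map_add, ha, ha', mul_add]

lemma adj2 (p i : ℕ) (x : Coh W D p) (hx : ∀ s, x s ∈ W.gr _ i) (y : Coh W D (p + 1)) :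
    pair W D p x (gys W D p y) = pair W D (p + 1) (res W D p x) y := by
  have h1 : pair W D p (gys W D p y) x = (-1 : W.K) ^ i * pair W D p x (gys W D p y) := by
    rw [pair_def, pair_def, mul_sum]
    exact sum_congr rfl fun s _ => tr_comm W (hx s) _
  have h2 : pair W D (p + 1) y (res W D p x) =
      (-1 : W.K) ^ i * pair W D (p + 1) (res W D p x) y := by
    rw [pair_def, pair_def, mul_sum]
    refine sum_congr rfl fun s _ => tr_comm W ?_ _
    rw [res_apply]
    exact Submodule.sum_mem _ fun i _ => Submodule.smul_mem _ _ (W.map_mem _ (hx _))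
  have h3 := adj W D p y x
  rw [h1, h2] at h3
  have h4 : (-1 : W.K) ^ i ≠ 0 := pow_ne_zero _ (by simp)
  exact mul_left_cancel₀ h4 h3

lemma pair_smul_right (p : ℕ) (c : W.K) (x y : Coh W D p) :
    pair W D p x (c • y) = c * pair W D p x y := by
  simp [pair_def, mul_sum]

lemma pair_zero_left (p : ℕ) (y : Coh W D p) : pair W D p 0 y = 0 := by
  simp [pair_def]

lemma pair_zero_right (p : ℕ) (y : Coh W D p) : pair W D p y 0 = 0 := by
  simp [pair_def]

/-- The intersection form. -/
noncomputable def Phi : Tot W D →ₗ[W.K] Tot W D →ₗ[W.K] W.K :=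
  LinearMap.mk₂ W.K (fun f g => ∑ p ∈ range (d + 1), pair W D p (f p) (g p))
    (fun f f' g => by
      simp only [Pi.add_apply]
      rw [← sum_add_distrib]
      exact sum_congr rfl fun p _ => pair_add_left W D p _ _ _)
    (fun c f g => by
      simp only [Pi.smul_apply, smul_eq_mul]
      rw [mul_sum]
      exact sum_congr rfl fun p _ => pair_smul_left W D p _ _ _)
    (fun f g g' => by
      simp only [Pi.add_apply]
      rw [← sum_add_distrib]
      exact sum_congr rfl fun p _ => pair_add_right W D p _ _ _)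
    (fun c f g => by
      simp only [Pi.smul_apply, smul_eq_mul]
      rw [mul_sum]
      exact sum_congr rfl fun p _ => pair_smul_right W D p _ _ _)

lemma Phi_apply (f g : Tot W D) :
    Phi W D f g = ∑ p ∈ range (d + 1), pair W D p (f p) (g p) := rfl

lemma isEmpty {p : ℕ} (hp : d < p) : IsEmpty (D.S p) := by
  constructor
  intro s
  have := D.dim_add p s
  omega

lemma pair_big {p : ℕ} (hp : d < p) (x y : Coh W D p) : pair W D p x y = 0 := by
  have := isEmpty D hp
  rw [pair_def]
  simp

instance : Module.Finite W.K (Tot W D) := by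
  let F : Tot W D →ₗ[W.K] (∀ p : Fin (d + 1), Coh W D p) :=
    LinearMap.pi fun p => LinearMap.proj (p : ℕ)
  apply Module.Finite.of_injective F
  intro f g h
  funext p s
  have hp : p < d + 1 := by
    have := D.dim_add p s
    omega
  have := congrFun (congrFun h ⟨p, hp⟩) s
  exact this

/-- The differential as a linear map. -/
noncomputable def difL (m : ℤ) : Tot W D →ₗ[W.K] Tot W D where
  toFun := dif W D m
  map_add' f g := by
    funext p s
    simp only [dif, Pi.add_apply]
    split_ifs
    · rw [gysF_eq, gysF_eq, gysF_eq, map_add, Pi.add_apply]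
      cases p with
      | zero => simp only [resT, Pi.zero_apply]; abel
      | succ p =>
        simp only [resT, Pi.add_apply]
        rw [resF_eq, resF_eq, resF_eq, map_add, Pi.add_apply]
        abel
    · rw [add_zero]
  map_smul' c f := by
    funext p s
    simp only [dif, Pi.smul_apply, RingHom.id_apply]
    split_ifs
    · rw [gysF_eq, gysF_eq, map_smul, Pi.smul_apply, smul_add]
      cases p with
      | zero => simp only [resT, Pi.zero_apply, smul_zero]
      | succ p =>
        simp only [resT, Pi.smul_apply]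
        rw [resF_eq, resF_eq, map_smul, Pi.smul_apply]
    · rw [smul_zero]

lemma difL_apply (m : ℤ) (f : Tot W D) : difL W D m f = dif W D m f := rfl

/-- The space `E_1`. -/
noncomputable def M (q : ℕ) (m : ℤ) : Submodule W.K (Tot W D) where
  carrier := {f | InE1 W D q m f}
  zero_mem' := fun p s => ⟨Submodule.zero_mem _, Or.inl rfl⟩
  add_mem' := by
    intro f g hf hg p s
    refine ⟨Submodule.add_mem _ (hf p s).1 (hg p s).1, ?_⟩
    rcases (hf p s).2 with h | h
    · rcases (hg p s).2 with h' | h'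
      · left
        show f p s + g p s = 0
        rw [h, h', add_zero]
      · exact Or.inr h'
    · exact Or.inr h
  smul_mem' := by
    intro c f hf p s
    refine ⟨Submodule.smul_mem _ _ (hf p s).1, ?_⟩
    rcases (hf p s).2 with h | h
    · left
      show c • f p s = 0
      rw [h, smul_zero]
    · exact Or.inr h

lemma mem_M {q : ℕ} {m : ℤ} {f : Tot W D} : f ∈ M W D q m ↔ InE1 W D q m f := Iff.rfl

lemma M_neg (q : ℕ) (m : ℤ) : M W D q (-m) = M W D q m := by
  ext f
  simp only [mem_M, InE1, Int.natAbs_neg]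
  have : ∀ p : ℕ, Even ((p : ℤ) + -m) ↔ Even ((p : ℤ) + m) := by
    intro p
    rw [Int.even_add, Int.even_add, even_neg]
  simp only [this]

lemma M_congr (q : ℕ) {m m' : ℤ} (h : m' = m ∨ m' = -m) : M W D q m' = M W D q m := by
  rcases h with h | h
  · rw [h]
  · rw [h, M_neg]

lemma zero_of {q : ℕ} {m : ℤ} {f : Tot W D} (hf : f ∈ M W D q m) {p : ℕ}
    (h : ¬ (p ≤ q ∧ m.natAbs ≤ p ∧ Even ((p : ℤ) + m))) : f p = 0 := by
  funext s
  exact ((hf p s).2).resolve_right h

lemma gys_gr (p i : ℕ) (x : Coh W D (p + 1)) (hx : ∀ s, x s ∈ W.gr _ i) (t : D.S p) :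
    gys W D p x t ∈ W.gr _ (i + 2) := by
  rw [gys_apply, Finset.sum_apply]
  apply Submodule.sum_mem
  intro s _
  rw [Finset.sum_apply]
  apply Submodule.sum_mem
  intro j _
  rw [Pi.smul_apply]
  apply Submodule.smul_mem
  by_cases ht : t = D.face p j s
  · subst ht
    rw [Pi.single_eq_same]
    have h := W.push_mem (D.inc p j s) (hx s)
    have h1 := D.dim_add (p + 1) s
    have h2 := D.dim_add p (D.face p j s)
    have e : (i : ℤ) + 2 * (((D.Y p (D.face p j s)).dim : ℤ) - (D.Y (p + 1) s).dim) =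
        ((i + 2 : ℕ) : ℤ) := by
      push_cast
      omega
    rw [e, grZ_natCast] at h
    exact h
  · rw [Pi.single_eq_of_ne ht]
    exact Submodule.zero_mem _

lemma res_gr (p i : ℕ) (x : Coh W D p) (hx : ∀ s, x s ∈ W.gr _ i) (t : D.S (p + 1)) :
    res W D p x t ∈ W.gr _ i := by
  rw [res_apply]
  exact Submodule.sum_mem _ fun i _ => Submodule.smul_mem _ _ (W.map_mem _ (hx _))

lemma dif_mem {q : ℕ} {m : ℤ} {f : Tot W D} (hf : f ∈ M W D q m) :
    dif W D m f ∈ M W D (q + 1) (m - 1) := by
  intro p s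
  simp only [dif]
  by_cases h0 : (m - 1).natAbs ≤ p
  · rw [if_pos h0, gysF_eq]
    constructor
    · apply Submodule.add_mem
      · cases p with
        | zero => exact Submodule.zero_mem _
        | succ p =>
          simp only [resT]
          rw [resF_eq, show q + 1 - (p + 1) = q - p by omega]
          exact res_gr W D p _ _ (fun t => (hf p t).1) s
      · by_cases h1 : p + 1 ≤ q
        · have := gys_gr W D p _ _ (fun t => (hf (p + 1) t).1) s
          rwa [show q - (p + 1) + 2 = q + 1 - p by omega] at this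
        · rw [zero_of W D hf (p := p + 1) (by omega), map_zero]
          exact Submodule.zero_mem _
    · by_cases hc : p ≤ q + 1 ∧ Even ((p : ℤ) + (m - 1))
      · exact Or.inr ⟨hc.1, h0, hc.2⟩
      · left
        have e1 : f (p + 1) = 0 := by
          apply zero_of W D hf
          rintro ⟨a, b, c⟩
          apply hc
          refine ⟨by omega, ?_⟩
          have : (p : ℤ) + (m - 1) = ((p + 1 : ℕ) : ℤ) + m - 2 := by push_cast; ring
          rw [this]
          exact c.sub (by decide)
        rw [e1, map_zero, Pi.zero_apply, add_zero]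
        cases p with
        | zero => rfl
        | succ p =>
          simp only [resT]
          have e2 : f p = 0 := by
            apply zero_of W D hf
            rintro ⟨a, b, c⟩
            apply hc
            refine ⟨by omega, ?_⟩
            have : ((p + 1 : ℕ) : ℤ) + (m - 1) = (p : ℤ) + m := by push_cast; ring
            rw [this]
            exact c
          rw [resF_eq, e2, map_zero, Pi.zero_apply]
  · rw [if_neg h0]
    exact ⟨Submodule.zero_mem _, Or.inl rfl⟩

/-- The sum over the restrictions. -/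
lemma sum_resT (g f : Tot W D) :
    ∑ p ∈ range (d + 1), pair W D p (resT W D g p) (f p) =
      ∑ p ∈ range (d + 1), pair W D (p + 1) (res W D p (g p)) (f (p + 1)) := by
  rw [sum_range_succ', sum_range_succ, pair_big W D (p := d + 1) (by omega)]
  have : pair W D 0 (resT W D g 0) (f 0) = 0 := pair_zero_left W D 0 _
  rw [this]
  congr 1
  apply sum_congr rfl
  intro p _
  show pair W D (p + 1) (resF W D p (g p)) (f (p + 1)) = _
  rw [resF_eq]

lemma sum_resT' (g f : Tot W D) :
    ∑ p ∈ range (d + 1), pair W D p (g p) (resT W D f p) =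
      ∑ p ∈ range (d + 1), pair W D (p + 1) (g (p + 1)) (res W D p (f p)) := by
  rw [sum_range_succ', sum_range_succ, pair_big W D (p := d + 1) (by omega)]
  have : pair W D 0 (g 0) (resT W D f 0) = 0 := pair_zero_right W D 0 _
  rw [this]
  congr 1
  apply sum_congr rfl
  intro p _
  show pair W D (p + 1) (g (p + 1)) (resF W D p (f p)) = _
  rw [resF_eq]

/-- The differentials are adjoint. -/
lemma Phi_dif {q q' : ℕ} {m m' : ℤ} (hm : m' = 1 - m) {g f : Tot W D} (hg : g ∈ M W D q m)
    (hf : f ∈ M W D q' m') :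
    Phi W D (dif W D m g) f = Phi W D g (dif W D m' f) := by
  subst hm
  have h1 : ∀ p, pair W D p (dif W D m g p) (f p) =
      pair W D p (resT W D g p) (f p) + pair W D p (gys W D p (g (p + 1))) (f p) := by
    intro p
    rw [← pair_add_left]
    by_cases h : (m - 1).natAbs ≤ p
    · congr 1
      funext s
      simp only [dif]
      rw [if_pos h, gysF_eq]
      rfl
    · have : f p = 0 := by
        apply zero_of W D hf
        rintro ⟨_, b, _⟩
        omega
      rw [this, pair_zero_right, pair_zero_right]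
  have h2 : ∀ p, pair W D p (g p) (dif W D (1 - m) f p) =
      pair W D p (g p) (resT W D f p) + pair W D p (g p) (gys W D p (f (p + 1))) := by
    intro p
    rw [← pair_add_right]
    by_cases h : (1 - m - 1).natAbs ≤ p
    · congr 1
      funext s
      simp only [dif]
      rw [if_pos h, gysF_eq]
      rfl
    · have : g p = 0 := by
        apply zero_of W D hg
        rintro ⟨_, b, _⟩
        omega
      rw [this, pair_zero_left, pair_zero_left]
  rw [Phi_apply, Phi_apply, sum_congr rfl fun p _ => h1 p, sum_congr rfl fun p _ => h2 p,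
    sum_add_distrib, sum_add_distrib, sum_resT, sum_resT', add_comm]
  congr 1
  · exact sum_congr rfl fun p _ => adj W D p _ _
  · exact sum_congr rfl fun p _ => (adj2 W D p _ _ (fun s => (hg p s).1) _).symm

/-- An element of `E_1` with one component. -/
lemma single_mem {q : ℕ} {m : ℤ} {p : ℕ} (s : D.S p) {b : W.H (D.Y p s)}
    (hb : b ∈ W.gr _ (q - p)) (h1 : p ≤ q) (h2 : m.natAbs ≤ p) (h3 : Even ((p : ℤ) + m)) :
    (Pi.single p (Pi.single s b) : Tot W D) ∈ M W D q m := by
  intro p' s'
  by_cases hp : p' = p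
  · subst hp
    rw [Pi.single_eq_same]
    by_cases hs : s' = s
    · subst hs
      rw [Pi.single_eq_same]
      exact ⟨hb, Or.inr ⟨h1, h2, h3⟩⟩
    · rw [Pi.single_eq_of_ne hs]
      exact ⟨Submodule.zero_mem _, Or.inl rfl⟩
  · rw [Pi.single_eq_of_ne hp]
    exact ⟨Submodule.zero_mem _, Or.inl rfl⟩

lemma Phi_single (f : Tot W D) {p : ℕ} (s : D.S p) (b : W.H (D.Y p s)) :
    Phi W D f (Pi.single p (Pi.single s b)) = W.tr _ (f p s * b) := by
  have hp : p < d + 1 := by
    have := D.dim_add p s
    omega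
  rw [Phi_apply, sum_eq_single p, Pi.single_eq_same, pair_def, sum_eq_single s,
    Pi.single_eq_same]
  · intro t _ ht
    rw [Pi.single_eq_of_ne ht, mul_zero, map_zero]
  · intro h
    exact absurd (mem_univ _) h
  · intro p' _ hp'
    rw [Pi.single_eq_of_ne hp', pair_zero_right]
  · intro h
    exact absurd (mem_range.2 hp) h

lemma Phi_single' (f : Tot W D) {p : ℕ} (s : D.S p) (b : W.H (D.Y p s)) :
    Phi W D (Pi.single p (Pi.single s b)) f = W.tr _ (b * f p s) := by
  have hp : p < d + 1 := by
    have := D.dim_add p s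
    omega
  rw [Phi_apply, sum_eq_single p, Pi.single_eq_same, pair_def, sum_eq_single s,
    Pi.single_eq_same]
  · intro t _ ht
    rw [Pi.single_eq_of_ne ht, zero_mul, map_zero]
  · intro h
    exact absurd (mem_univ _) h
  · intro p' _ hp'
    rw [Pi.single_eq_of_ne hp', pair_zero_left]
  · intro h
    exact absurd (mem_range.2 hp) h

/-- A class which is orthogonal to the classes of complementary degree vanishes. -/
lemma zero_of_tr {X : 𝒱.Obj} {i j : ℕ} {a : W.H X} (ha : a ∈ W.gr X i) (hij : i + j = 2 * X.dim)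
    (h : ∀ b ∈ W.gr X j, W.tr X (a * b) = 0) : a = 0 := by
  apply W.nondeg
  intro c
  refine gr_induction (W.isInternal X) (p := fun c => W.tr X (a * c) = 0) ?_ ?_ c
  · intro l c hc
    by_cases hl : l = j
    · subst hl
      exact h c hc
    · exact W.tr_eq_zero (W.mul_mem ha hc) (by omega)
  · intro c c' hc hc'
    rw [mul_add, map_add, hc, hc', add_zero]

/-- The pairing is perfect, left side. -/
lemma nondeg_left {q q' : ℕ} (hq : q + q' = 2 * d) {m : ℤ} {f : Tot W D} (hf : f ∈ M W D q m)
    (h : ∀ g ∈ M W D q' m, Phi W D f g = 0) : f = 0 := by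
  funext p s
  by_contra hne
  rw [Pi.zero_apply, Pi.zero_apply] at hne
  obtain ⟨h1, h2, h3⟩ := ((hf p s).2).resolve_left hne
  have hdim := D.dim_add p s
  have h4 : q - p ≤ 2 * (D.Y p s).dim := by
    by_contra hlt
    have := (hf p s).1
    rw [W.gr_eq_bot _ _ (by omega)] at this
    exact hne ((Submodule.mem_bot _).1 this)
  apply hne
  refine zero_of_tr W (hf p s).1 (j := q' - p) (by omega) ?_
  intro b hb
  rw [← Phi_single]
  exact h _ (single_mem W D s hb (by omega) h2 h3)

/-- The pairing is perfect, right side. -/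
lemma nondeg_right {q q' : ℕ} (hq : q + q' = 2 * d) {m : ℤ} {f : Tot W D} (hf : f ∈ M W D q m)
    (h : ∀ g ∈ M W D q' m, Phi W D g f = 0) : f = 0 := by
  funext p s
  by_contra hne
  rw [Pi.zero_apply, Pi.zero_apply] at hne
  obtain ⟨h1, h2, h3⟩ := ((hf p s).2).resolve_left hne
  have hdim := D.dim_add p s
  have h4 : q - p ≤ 2 * (D.Y p s).dim := by
    by_contra hlt
    have := (hf p s).1
    rw [W.gr_eq_bot _ _ (by omega)] at this
    exact hne ((Submodule.mem_bot _).1 this)
  apply hne
  refine zero_of_tr W (hf p s).1 (j := q' - p) (by omega) ?_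
  intro b hb
  rw [tr_comm W hb, ← Phi_single', h _ (single_mem W D s hb (by omega) h2 h3), mul_zero]

/-- The kernel of the differential. -/
noncomputable def Z (q : ℕ) (m : ℤ) : Submodule W.K (Tot W D) :=
  M W D q m ⊓ LinearMap.ker (difL W D m)

/-- The image of the differential. -/
noncomputable def B (q : ℕ) (m : ℤ) : Submodule W.K (Tot W D) :=
  (M W D q m).map (difL W D m)

lemma mem_Z {q : ℕ} {m : ℤ} {f : Tot W D} :
    f ∈ Z W D q m ↔ InE1 W D q m f ∧ dif W D m f = 0 := Iff.rfl

lemma mem_B {q : ℕ} {m : ℤ} {f : Tot W D} :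
    f ∈ B W D q m ↔ ∃ g, InE1 W D q m g ∧ dif W D m g = f := Iff.rfl

lemma B_le (q : ℕ) (m m' : ℤ) (h : m' = m - 1 ∨ m' = 1 - m) : B W D q m ≤ M W D (q + 1) m' := by
  rintro _ ⟨g, hg, rfl⟩
  rw [M_congr W D (q + 1) (m := m - 1) (m' := m') (by omega)]
  exact dif_mem W D hg

/-- Elements orthogonal to the image on the right. -/
lemma perp_B_left {q q' : ℕ} (hq : q + 1 + q' = 2 * d) {m m' : ℤ} (hm : m' = 1 - m)
    {f : Tot W D} (hf : f ∈ M W D q' m') (h : ∀ g ∈ B W D q m, Phi W D g f = 0) :
    dif W D m' f = 0 := by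
  have h1 := dif_mem W D hf
  refine nondeg_right W D (q := q' + 1) (q' := q) (by omega) (m := m' - 1) h1 ?_
  intro g hg
  rw [M_congr W D q (m := m) (m' := m' - 1) (by omega)] at hg
  rw [← Phi_dif W D hm hg hf]
  exact h _ ⟨g, hg, rfl⟩

lemma perp_B_right {q q' : ℕ} (hq : q + 1 + q' = 2 * d) {m m' : ℤ} (hm : m' = 1 - m)
    {f : Tot W D} (hf : f ∈ M W D q' m') (h : ∀ g ∈ B W D q m, Phi W D f g = 0) :
    dif W D m' f = 0 := by
  have h1 := dif_mem W D hf
  refine nondeg_left W D (q := q' + 1) (q' := q) (by omega) (m := m' - 1) h1 ?_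
  intro g hg
  rw [M_congr W D q (m := m) (m' := m' - 1) (by omega)] at hg
  rw [Phi_dif W D (m := m') (m' := m) (by omega) hf hg]
  exact h _ ⟨g, hg, rfl⟩

/-- The orthogonal space of the kernel is the image. -/
lemma mem_B_of_perp_right {q q' : ℕ} (hq : q + 1 + q' = 2 * d) {m m' : ℤ} (hm : m' = 1 - m)
    {v : Tot W D} (hv : v ∈ M W D (q + 1) m') (h : ∀ f ∈ Z W D q' m', Phi W D v f = 0) :
    v ∈ B W D q m := by
  by_contra hn
  obtain ⟨v', hv', h1, h2⟩ := sep (Phi W D) (M W D (q + 1) m') (M W D q' m')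
    (fun v hv => nondeg_left W D (by omega) hv)
    (fun v hv => nondeg_right W D (by omega) hv) (B W D q m)
    (B_le W D q m m' (Or.inr hm)) v hv hn
  exact h2 (h v' ⟨hv', perp_B_left W D hq hm hv' h1⟩)

lemma mem_B_of_perp_left {q q' : ℕ} (hq : q + 1 + q' = 2 * d) {m m' : ℤ} (hm : m' = 1 - m)
    {v : Tot W D} (hv : v ∈ M W D (q + 1) m') (h : ∀ f ∈ Z W D q' m', Phi W D f v = 0) :
    v ∈ B W D q m := by
  by_contra hn
  obtain ⟨v', hv', h1, h2⟩ := sep (Phi W D).flip (M W D (q + 1) m') (M W D q' m')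
    (fun v hv => nondeg_right W D (by omega) hv)
    (fun v hv => nondeg_left W D (by omega) hv) (B W D q m)
    (B_le W D q m m' (Or.inr hm)) v hv hn
  exact h2 (h v' ⟨hv', perp_B_right W D hq hm hv' h1⟩)

end DualL

open DualL

theorem dual1 : S_DUAL1 := by
  intro k _ 𝒱 ops W d D q e he hq hqd hinj f hf hdf
  have hfM : f ∈ M W D (2 * d - q) (e : ℤ) := by
    rw [← M_neg]
    exact hf
  by_cases hmem : f ∈ Z W D (2 * d - q) (e : ℤ) ⊔ B W D (2 * d - q - 1) (1 - e : ℤ)
  · obtain ⟨f', hf', w, ⟨g, hg, hgw⟩, hsum⟩ := Submodule.mem_sup.1 hmem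
    exact ⟨f', g, hf'.1, hf'.2, hg, by rw [← hsum, ← hgw]; rfl⟩
  · exfalso
    have hle : Z W D (2 * d - q) (e : ℤ) ⊔ B W D (2 * d - q - 1) (1 - e : ℤ) ≤
        M W D (2 * d - q) (e : ℤ) := by
      apply sup_le inf_le_left
      have := B_le W D (2 * d - q - 1) (1 - e : ℤ) (e : ℤ) (by omega)
      rwa [show 2 * d - q - 1 + 1 = 2 * d - q by omega] at this
    obtain ⟨v, hv, h1, h2⟩ := sep (Phi W D).flip (M W D (2 * d - q) (e : ℤ)) (M W D q (e : ℤ))
      (fun v hv => nondeg_right W D (by omega) hv)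
      (fun v hv => nondeg_left W D (by omega) hv) _ hle f hfM hmem
    -- `v` is a cycle
    have h3 : dif W D (e : ℤ) v = 0 := by
      refine perp_B_right W D (q := 2 * d - q - 1) (q' := q) (by omega) (m := 1 - e) (by omega)
        hv ?_
      intro g hg
      exact h1 g (Submodule.mem_sup_right hg)
    -- `v` is a boundary
    have h4 : v ∈ B W D (q - 1) (1 - e : ℤ) := by
      refine mem_B_of_perp_right W D (q := q - 1) (q' := 2 * d - q) (by omega) (m := 1 - e)
        (m' := e) (by omega) ?_ ?_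
      · rw [show q - 1 + 1 = q by omega]
        exact hv
      · intro g hg
        exact h1 g (Submodule.mem_sup_left hg)
    obtain ⟨g, hg, hgv⟩ := hinj v hv h3 h4
    apply h2
    show Phi W D v f = 0
    rw [← hgv, Phi_dif W D (m := (e : ℤ) + 1) (m' := -e) (by ring) hg hf, hdf, map_zero]

theorem dual2 : S_DUAL2 := by
  intro k _ 𝒱 ops W d D q e he hq hqd hsurj f hf hdf hex
  obtain ⟨g, hg, hgf⟩ := hex
  have h1 : ∀ w ∈ Z W D q (-e : ℤ), Phi W D w f = 0 := by
    intro w hw
    obtain ⟨f', g', h2, h3, h4, h5⟩ := hsurj w hw.1 hw.2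
    rw [h5, map_add, LinearMap.add_apply]
    have e1 : Phi W D f' f = 0 := by
      rw [← hgf, ← Phi_dif W D (m := (e : ℤ)) (m' := 1 - e) rfl h2 hg, h3]
      simp
    have e2 : Phi W D (dif W D (1 - e : ℤ) g') f = 0 := by
      rw [Phi_dif W D (m := 1 - (e : ℤ)) (m' := e) (by ring) h4 hf, hdf, map_zero]
    rw [e1, e2, add_zero]
  have h6 : f ∈ B W D (2 * d - q - 1) (e + 1 : ℤ) := by
    refine mem_B_of_perp_left W D (q := 2 * d - q - 1) (q' := q) (by omega) (m := e + 1)
      (m' := -e) (by ring) ?_ h1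
    rw [show 2 * d - q - 1 + 1 = 2 * d - q by omega, M_neg]
    exact hf
  exact h6

end Pool.Agent.Helper7K9.KW
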