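import Pool.Agent.Helper7K9.KW.Defs

/-!
# Statements
-/

open CategoryTheory

universe u v

namespace Pool.Agent.Helper7K9.KW

open Pool.Agent.H914 Pool.Agent.H914.VarClass Pool.Agent.H914.VarClass.Obj
  Pool.Agent.H914.WeilCohomology Pool.Agent.Helper7K9.OL

/-- Duality between the total degrees `q` and `2d - q`. -/
def S_DUAL1 : Prop :=
  ∀ {k : Type} [Field k] {𝒱 : VarClass k} {ops : CycleOps 𝒱} (W : WeilCohomology.{0, 0} ops)
    {d : ℕ} (D : Strata 𝒱 d) (q e : ℕ), 1 ≤ e → 1 ≤ q → q < 2 * d →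
    Inj W D q e → Surj W D (2 * d - q) e

/-- Duality between the total degrees `q` and `2d - q`. -/
def S_DUAL2 : Prop :=
  ∀ {k : Type} [Field k] {𝒱 : VarClass k} {ops : CycleOps 𝒱} (W : WeilCohomology.{0, 0} ops)
    {d : ℕ} (D : Strata 𝒱 d) (q e : ℕ), 1 ≤ e → 1 ≤ q → q < 2 * d →
    Surj W D q e → Inj W D (2 * d - q) e

end Pool.Agent.Helper7K9.KW
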